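import Pool.Agent.Lib.MP_b5021c_nt.IfaceK1

/-! # SUB: diagonal subsequence (helper7) -/

namespace Pool.Agent.MP_b5021c_nt.H07

open Filter Topology

theorem sub : SubS := by
  intro J _ a M hM
  have hK : IsCompact (Set.univ.pi fun p : J × ℕ => Set.Icc (-(M p.2 : ℤ)) (M p.2)) :=
    isCompact_univ_pi fun p => (Set.finite_Icc _ _).isCompact
  have hmem : ∀ n, (fun p : J × ℕ => a n p.1 p.2) ∈
      Set.univ.pi fun p : J × ℕ => Set.Icc (-(M p.2 : ℤ)) (M p.2) := by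
    intro n p _
    exact ⟨(abs_le.1 (hM n p.1 p.2)).1, (abs_le.1 (hM n p.1 p.2)).2⟩
  obtain ⟨b, _, φ, hφ, hlim⟩ := hK.tendsto_subseq hmem
  refine ⟨φ, fun i j => b (i, j), hφ, fun i j => ?_⟩
  have h := (tendsto_pi_nhds.1 hlim) (i, j)
  rw [nhds_discrete, tendsto_pure] at h
  exact h

end Pool.Agent.MP_b5021c_nt.H07
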